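import Pool.Agent.MP_93dc40_an.MvNorm

namespace Pool.Agent.MP_93dc40_an

open Finset MvPolynomial

variable {m : ℕ}

/-- the normalising sum -/
def sg (n : ℕ) (Q : Matrix (Fin m) (Fin m) ℕ) (x : Fin m → ℚ) : ℚ := ∑ k, ∑ l, Q k l * x l ^ (n + 1)

/-- the linear part of the local map -/
def lam (n : ℕ) (Q : Matrix (Fin m) (Fin m) ℕ) (x y : Fin m → ℚ) : Matrix (Fin m) (Fin m) ℚ :=
  fun i j => (n + 1) * x j ^ n * (Q i j - y i * ∑ k, (Q k j : ℚ)) / sg n Q x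

/-- products of the linear parts -/
def pp (n : ℕ) (Q : Matrix (Fin m) (Fin m) ℕ) (b : ℕ → Fin m → ℚ) :
    ℕ → ℕ → Matrix (Fin m) (Fin m) ℚ
  | _, 0 => 1
  | r, k + 1 => pp n Q b (r + 1) k * lam n Q (b r) (b (r + 1))

theorem pp_periodic (n : ℕ) (Q : Matrix (Fin m) (Fin m) ℕ) (b : ℕ → Fin m → ℚ) (p : ℕ)
    (h : Function.Periodic b p) : ∀ k r, pp n Q b (r + p) k = pp n Q b r k
  | 0, _ => rfl
  | k + 1, r => by
    rw [pp, pp, h, add_right_comm, h, pp_periodic n Q b p h k]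

theorem sg_eq (n : ℕ) (Q : Matrix (Fin m) (Fin m) ℕ) (x : Fin m → ℚ) :
    sg n Q x = ∑ l, (∑ k, (Q k l : ℚ)) * x l ^ (n + 1) := by
  simp only [sum_mul]
  exact sum_comm

/-- one chart change: `P k` are the products from the current phase, `P' k` from the next -/
theorem chart (n : ℕ) (Q : Matrix (Fin m) (Fin m) ℕ) (p : ℕ) (hp : 0 < p) (K A c l θ δ : ℚ)
    (hK : ∀ (y q : MvPolynomial (Fin p × Fin m) ℚ) (l : ℚ), nrm 1 y ≤ 1 → nrm 1 q ≤ l → l ≤ 1 →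
      nrm 1 ((y + q) ^ (n + 1) - y ^ (n + 1)) ≤ K * l ∧
      nrm 1 ((y + q) ^ (n + 1) - y ^ (n + 1) - C (n + 1 : ℚ) * (y ^ n * q)) ≤ K * l ^ 2)
    (l0 : 0 < l) (l1 : l ≤ 1) (θ0 : 0 < θ) (θ1 : θ ≤ 1) (hc : ∀ j, ∑ k, (Q k j : ℚ) ≤ c)
    (x y : Fin m → ℚ) (P P' : ℕ → Matrix (Fin m) (Fin m) ℚ) (P0 : P 0 = 1)
    (Ps : ∀ k, P (k + 1) = P' k * lam n Q x y) (hx : ∀ j, |x j| ≤ 1) (hy : ∀ j, |y j| ≤ 1)
    (s0 : 0 < sg n Q x) (sA : (sg n Q x)⁻¹ ≤ A) (PA : ∀ k < p, ∀ i j, |P' k i j| ≤ A)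
    (Pθ : ∀ i, ∑ j, |P p i j| ≤ θ ^ p)
    (hδ : ∀ i, |(∑ j, Q i j * x j ^ (n + 1)) / sg n Q x - y i| ≤ δ) :
    ∃ (g : MvPolynomial (Fin p × Fin m) ℚ) (G : Fin p × Fin m → MvPolynomial (Fin p × Fin m) ℚ),
      (g.totalDegree ≤ n + 1 ∧ nrm 1 (g - 1) ≤ m * (A * c * (K * l))) ∧
      (∀ i, (G i).totalDegree ≤ n + 1 ∧
        nrm 1 (G i) ≤ θ + m * (l⁻¹ * θ⁻¹ ^ p * A * (δ + m * (A * (2 * c) * (K * l ^ 2))))) ∧
      ∀ (u : Fin m → ℚ) (w : Fin p × Fin m → ℚ),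
        (∀ i, w i = l⁻¹ * θ⁻¹ ^ (i.1 : ℕ) * ∑ j, P i.1 i.2 j * (u j - x j)) →
        sg n Q x * eval w g = sg n Q u ∧ ∀ i, sg n Q x * eval w (G i) =
          l⁻¹ * θ⁻¹ ^ (i.1 : ℕ) * ∑ j, P' i.1 i.2 j *
            (∑ k, Q j k * u k ^ (n + 1) - y j * sg n Q u) := by
  obtain ⟨z, hz⟩ : ∃ z : Fin m → MvPolynomial (Fin p × Fin m) ℚ,
    ∀ j, z j = C l * X (⟨0, hp⟩, j) := ⟨_, fun _ => rfl⟩
  have z1 : ∀ j, nrm 1 (z j) ≤ l := fun j => by
    simpa [hz, abs_of_pos l0] using nrm_mul_le (nrm_C 1 l).le (nrm_X ((⟨0, hp⟩, j) : Fin p × Fin m)).le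
  have z2 : ∀ j, (z j).totalDegree ≤ 1 := fun j =>
    hz j ▸ (totalDegree_mul _ _).trans (by simp)
  have z3 : ∀ j, ((C (x j) + z j) ^ (n + 1)).totalDegree ≤ n + 1 := fun j =>
    (totalDegree_pow _ _).trans ((Nat.mul_le_mul_left _ ((totalDegree_add _ _).trans
      (max_le (by simp) (z2 j)))).trans_eq (mul_one _))
  have cm : ∀ (a : ℚ) (q : MvPolynomial (Fin p × Fin m) ℚ), q.totalDegree ≤ n + 1 →
      (C a * q).totalDegree ≤ n + 1 := fun a q h => (totalDegree_mul _ _).trans (by simpa using h)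
  have hK' := fun j => hK (C (x j)) (z j) l ((nrm_C _ _).trans_le (hx j)) (z1 j) l1
  have sb : ∀ (f : Fin m → MvPolynomial (Fin p × Fin m) ℚ) (B : ℚ), (∀ j, nrm 1 (f j) ≤ B) →
      nrm 1 (∑ j, f j) ≤ m * B := fun f B h =>
    (nrm_sum zero_le_one _ _).trans ((sum_le_card_nsmul _ _ B fun j _ => h j).trans_eq (by simp))
  have i0 := inv_pos.2 s0
  have c0 : ∀ j, 0 ≤ ∑ k, (Q k j : ℚ) := fun j => sum_nonneg fun _ _ => by positivity
  obtain ⟨E, hE⟩ : ∃ E : Fin m → MvPolynomial (Fin p × Fin m) ℚ, ∀ i, E i =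
      C ((∑ j, Q i j * x j ^ (n + 1)) / sg n Q x - y i) +
      ∑ j, C ((sg n Q x)⁻¹ * (Q i j - y i * ∑ k, (Q k j : ℚ))) * ((C (x j) + z j) ^ (n + 1) -
        C (x j) ^ (n + 1) - C (n + 1 : ℚ) * (C (x j) ^ n * z j)) := ⟨_, fun _ => rfl⟩
  refine ⟨1 + ∑ j, C ((sg n Q x)⁻¹ * ∑ k, (Q k j : ℚ)) *
      ((C (x j) + z j) ^ (n + 1) - C (x j) ^ (n + 1)),
    fun i => (if h : (i.1 : ℕ) + 1 < p then C θ * X (⟨_, h⟩, i.2) else
      ∑ j, C (θ⁻¹ ^ (i.1 : ℕ) * P (i.1 + 1) i.2 j) * X (⟨0, hp⟩, j)) +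
      ∑ j, C (l⁻¹ * θ⁻¹ ^ (i.1 : ℕ) * P' i.1 i.2 j) * E j, ⟨?_, ?_⟩, fun i => ⟨?_, ?_⟩,
    fun u w hw => ?_⟩
  · exact (totalDegree_add _ _).trans (max_le (by simp) (totalDegree_finsetSum_le fun j _ =>
      cm _ _ ((totalDegree_sub _ _).trans (max_le (z3 j) (by rw [← map_pow, totalDegree_C]; omega)))))
  · rw [add_sub_cancel_left]
    refine sb _ _ fun j => nrm_mul_le ?_ (hK' j).1
    rw [nrm_C, abs_of_nonneg (mul_nonneg i0.le (c0 j))]
    exact mul_le_mul sA (hc j) (c0 j) (i0.le.trans sA)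
  · refine (totalDegree_add _ _).trans (max_le ?_ (totalDegree_finsetSum_le fun j _ => cm _ _ ?_))
    · split_ifs
      · exact cm _ _ (by simp)
      · exact totalDegree_finsetSum_le fun j _ => cm _ _ (by simp)
    · rw [hE]
      refine (totalDegree_add _ _).trans (max_le (by rw [totalDegree_C]; omega)
        (totalDegree_finsetSum_le fun k _ => cm _ _ ((totalDegree_sub _ _).trans (max_le
          ((totalDegree_sub _ _).trans (max_le (z3 k) (by rw [← map_pow, totalDegree_C]; omega))) (cm _ _ ?_)))))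
      rw [← map_pow]
      exact cm _ _ ((z2 k).trans (by omega))
  · have θ2 : 1 ≤ θ⁻¹ := (one_le_inv₀ θ0).2 θ1
    refine (nrm_add zero_le_one _ _).trans (add_le_add ?_ (sb _ _ fun j => nrm_mul_le ?_ ?_))
    · split_ifs with h
      · simpa [abs_of_pos θ0] using nrm_mul_le (nrm_C 1 θ).le (nrm_X ((⟨_, h⟩, i.2) : Fin p × Fin m)).le
      · have h1 : (i.1 : ℕ) + 1 = p := by have := i.1.2; omega
        refine (nrm_sum zero_le_one _ _).trans ((sum_le_sum fun j _ =>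
          nrm_mul_le (nrm_C _ _).le (nrm_X _).le).trans ?_)
        simp only [mul_one, abs_mul, ← mul_sum, h1]
        rw [abs_of_pos (by positivity)]
        refine (mul_le_mul_of_nonneg_left (Pθ _) (by positivity)).trans_eq ?_
        rw [show θ ^ p = θ ^ ((i.1 : ℕ) + 1) by rw [h1], pow_succ, inv_pow]
        field_simp
    · rw [nrm_C, abs_mul, abs_of_pos (by positivity)]
      exact mul_le_mul (mul_le_mul_of_nonneg_left (pow_le_pow_right₀ θ2 i.1.2.le) (by positivity))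
        (PA _ i.1.2 _ _) (abs_nonneg _) (by positivity)
    · rw [hE]
      refine (nrm_add zero_le_one _ _).trans (add_le_add ((nrm_C _ _).trans_le (hδ j))
        (sb _ _ fun k => nrm_mul_le ?_ (hK' k).2))
      rw [nrm_C, abs_mul, abs_of_pos i0]
      refine mul_le_mul sA ((abs_sub _ _).trans ?_) (abs_nonneg _) (i0.le.trans sA)
      have h1 : (Q j k : ℚ) ≤ ∑ k', (Q k' k : ℚ) :=
        single_le_sum (f := fun k' => (Q k' k : ℚ)) (fun _ _ => by positivity) (mem_univ j)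
      rw [Nat.abs_cast, abs_mul, abs_of_nonneg (c0 k)]
      linarith [mul_le_of_le_one_left (c0 k) (hy j), hc k]
  have w0 : ∀ j, w (⟨0, hp⟩, j) = l⁻¹ * (u j - x j) := fun j => by
    simp [hw, P0, Matrix.one_apply]
  have ez : ∀ j, eval w (z j) = u j - x j := fun j => by
    rw [hz, map_mul, eval_C, eval_X, w0]
    field_simp
  have eE : ∀ i, sg n Q x * eval w (E i) = (∑ k, Q i k * u k ^ (n + 1) - y i * sg n Q u) -
      sg n Q x * ∑ k, lam n Q x y i k * (u k - x k) := fun i => by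
    simp only [hE, map_add, map_sum, map_mul, map_sub, map_pow, eval_C, ez, add_sub_cancel]
    rw [mul_add, mul_sub, mul_div_cancel₀ _ s0.ne', sg_eq n Q u, mul_comm _ (y i), mul_sum, mul_sum,
      mul_sum]
    nth_rewrite 1 [sg_eq n Q x]
    simp only [mul_sum univ _ (y i), ← sum_sub_distrib, ← sum_add_distrib]
    refine sum_congr rfl fun k _ => ?_
    simp only [lam, ← mul_sum]
    field_simp
    ring
  refine ⟨?_, fun i => ?_⟩
  · simp only [map_add, map_sum, map_mul, map_sub, map_pow, eval_C, ez, add_sub_cancel, map_one]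
    rw [mul_add, mul_one, mul_sum, sg_eq n Q u]
    nth_rewrite 1 [sg_eq n Q x]
    rw [← sum_add_distrib]
    refine sum_congr rfl fun k _ => ?_
    field_simp
    ring
  · have h1 : eval w (if h : (i.1 : ℕ) + 1 < p then C θ * X (⟨_, h⟩, i.2) else
        ∑ j, C (θ⁻¹ ^ (i.1 : ℕ) * P (i.1 + 1) i.2 j) * X (⟨0, hp⟩, j)) =
        l⁻¹ * θ⁻¹ ^ (i.1 : ℕ) * ∑ j, P (i.1 + 1) i.2 j * (u j - x j) := by
      split_ifs with h
      · rw [map_mul, eval_C, eval_X, hw, pow_succ]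
        field_simp
      · simp only [map_sum, map_mul, eval_C, eval_X, w0, mul_sum]
        exact sum_congr rfl fun j _ => by ring
    have h2 : ∑ j, P (i.1 + 1) i.2 j * (u j - x j) =
        ∑ j, P' i.1 i.2 j * ∑ k, lam n Q x y j k * (u k - x k) := by
      simp only [Ps, Matrix.mul_apply, sum_mul, mul_sum, mul_assoc]
      exact sum_comm
    rw [map_add, h1, h2, map_sum, mul_sum, ← sum_add_distrib, mul_sum, mul_sum]
    refine sum_congr rfl fun j _ => ?_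
    rw [map_mul, eval_C]
    linear_combination (l⁻¹ * θ⁻¹ ^ (i.1 : ℕ) * P' i.1 i.2 j) * eE j

end Pool.Agent.MP_93dc40_an
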