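import Pool.Agent.MP_93dc40_an.MvHull
import Pool.Agent.MP_93dc40_an.Sim

namespace Pool.Agent.MP_93dc40_an

open Finset MvPolynomial Filter Topology

theorem nrm_pow_sub_one {ι : Type} {g : MvPolynomial ι ℚ} {ε : ℚ} (h : nrm 1 (g - 1) ≤ ε) :
    ∀ D : ℕ, nrm 1 (g ^ D) ≤ (1 + ε) ^ D ∧ nrm 1 (g ^ D - 1) ≤ (1 + ε) ^ D - 1 := by
  have h1 : nrm 1 g ≤ 1 + ε := by
    have := nrm_add zero_le_one 1 (g - 1)
    rw [nrm_one, add_sub_cancel] at this
    linarith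
  refine fun D => ⟨nrm_pow_le h1 D, ?_⟩
  induction D with
  | zero => simp [nrm_zero]
  | succ D ih =>
    rw [show g ^ (D + 1) - 1 = g * (g ^ D - 1) + (g - 1) by ring]
    refine (nrm_add zero_le_one _ _).trans ((add_le_add (nrm_mul_le h1 ih) h).trans_eq (by ring))

theorem comp_target {ι : Type} [Fintype ι] (d D : ℕ) (g R : MvPolynomial ι ℚ)
    (G : ι → MvPolynomial ι ℚ) (ε θ : ℚ) (hε : 0 ≤ ε) (_hθ : 0 ≤ θ) (g1 : g.totalDegree ≤ d)
    (g2 : nrm 1 (g - 1) ≤ ε) (G1 : ∀ i, (G i).totalDegree ≤ d) (G2 : ∀ i, nrm 1 (G i) ≤ θ)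
    (hR : R.totalDegree ≤ D) : ∃ T : MvPolynomial ι ℚ, T.totalDegree ≤ d * D ∧
      nrm 1 T ≤ (1 + ε) ^ D - 1 + nrm θ R * (1 + ε) ^ D ∧ ∀ w w' : ι → ℚ,
        (∀ i, eval w g * w' i = eval w (G i)) → eval w (1 + T) = eval w g ^ D * (1 + eval w' R) := by
  have hd : ∀ γ ∈ R.support, ∑ i, γ i ≤ D := fun γ hγ =>
    (Finsupp.degree_eq_sum γ).symm.trans_le ((le_totalDegree hγ).trans hR)
  refine ⟨g ^ D - 1 + ∑ γ ∈ R.support, C (coeff γ R) * (∏ i, G i ^ γ i) * g ^ (D - ∑ i, γ i),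
    ?_, ?_, fun w w' h => ?_⟩
  · refine (totalDegree_add _ _).trans (max_le ((totalDegree_sub _ _).trans (max_le
      ((totalDegree_pow _ _).trans ?_) (by simp))) (totalDegree_finsetSum_le fun γ hγ => ?_))
    · rw [mul_comm]
      exact Nat.mul_le_mul_right _ g1
    · have h1 : (∏ i, G i ^ γ i).totalDegree ≤ (∑ i, γ i) * d := by
        rw [sum_mul]
        exact (totalDegree_finsetProd _ _).trans (sum_le_sum fun i _ =>
          (totalDegree_pow _ _).trans (Nat.mul_le_mul_left _ (G1 i)))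
      have h2 := (totalDegree_pow g (D - ∑ i, γ i)).trans (Nat.mul_le_mul_left _ g1)
      refine (totalDegree_mul _ _).trans ((add_le_add ((totalDegree_mul _ _).trans
        (add_le_add (totalDegree_C _).le h1)) h2).trans_eq ?_)
      rw [zero_add, ← add_mul, Nat.add_sub_cancel' (hd γ hγ), mul_comm]
  · refine (nrm_add zero_le_one _ _).trans (add_le_add (nrm_pow_sub_one g2 D).2
      ((nrm_sum zero_le_one _ _).trans ?_))
    rw [nrm, sum_mul]
    refine sum_le_sum fun γ _ => nrm_mul_le (nrm_mul_le (nrm_C _ _).le ?_)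
      ((nrm_pow_sub_one g2 _).1.trans (pow_le_pow_right₀ (by linarith) (Nat.sub_le _ _)))
    rw [Finsupp.degree_eq_sum, ← prod_pow_eq_pow_sum]
    exact nrm_prod_le _ _ _ fun i => nrm_pow_le (G2 i) _
  · rw [eval_eq' w' R]
    simp only [map_add, map_sub, map_pow, map_one, map_sum, map_mul, map_prod, eval_C, ← h, mul_add,
      mul_sum, mul_pow, prod_mul_distrib, prod_pow_eq_pow_sum]
    rw [← add_assoc, add_sub_cancel, mul_one]
    congr 1
    refine sum_congr rfl fun γ hγ => ?_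
    rw [← pow_mul_pow_sub _ (hd γ hγ)]
    ring

theorem orbit_sys (n : ℕ) (hn : 2 ≤ n) (ho : Odd (n + 1)) (θ : ℚ) (θ0 : 0 ≤ θ) (θ1 : θ < 1) :
    ∃ (ε : ℚ) (s : ℕ), 0 < ε ∧ ε ≤ 1 / 2 ∧ ∀ (ι : Type) [Fintype ι] (p : ℕ), 0 < p →
      ∀ (g : ℕ → MvPolynomial ι ℚ) (G : ℕ → ι → MvPolynomial ι ℚ) (κ t : ℕ → ℚ) (w : ℕ → ι → ℚ),
      Function.Periodic g p → Function.Periodic G p → Function.Periodic κ p → (∀ r, 0 < κ r) →
      (∀ r, (g r).totalDegree ≤ n + 1 ∧ nrm 1 (g r - 1) ≤ ε) →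
      (∀ r i, (G r i).totalDegree ≤ n + 1 ∧ nrm 1 (G r i) ≤ θ) →
      (∀ m, 0 < t m) → Monotone t → (∀ m i, |w m i| ≤ ε) →
      (∀ m, t (m + 1) = κ m * t m ^ (n + 1) * eval (w m) (g m)) →
      (∀ m i, eval (w m) (g m) * w (m + 1) i = eval (w m) (G m i)) →
      ∃ (α : Type) (S : Finset α) (W : α → α → ℚ) (γ : ℕ → α → ℚ), Sys (n + 1) S W γ ∧
        (∀ m, ∀ v ∈ S, γ m v ≤ 2 * t (m + p) ^ (n + 1) ^ s) ∧
        ∀ v ∈ S, ∃ᶠ m in atTop, t (m + p) ^ (n + 1) ^ s ≤ 2 * γ m v := by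
  classical
  obtain ⟨C, e, C0, e0, e1, hull⟩ := mv_hull n hn ho
  obtain ⟨k, k1, hk⟩ : ∃ k, 1 ≤ k ∧ C * θ ^ k ≤ e / 5 := by
    have := (tendsto_pow_atTop_nhds_zero_of_lt_one θ0 θ1).const_mul C
    rw [mul_zero] at this
    exact ((eventually_ge_atTop 1).and (this.eventually (ge_mem_nhds (by positivity)))).exists
  obtain ⟨D, hD⟩ : ∃ D, D = (n + 1) ^ (k + 1) := ⟨_, rfl⟩
  have D1 : (n + 1) * k ≤ D := by
    rw [hD, pow_succ']
    exact Nat.mul_le_mul_left _ (Nat.lt_pow_self (by omega)).le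
  obtain ⟨ε, ⟨⟨ε1, ε2⟩, ε3⟩, ε0⟩ : ∃ ε : ℚ, (((1 + ε) ^ D < 1 + e / 2 ∧ C * ε < 1 / 4) ∧ ε < 1 / 2) ∧
      0 < ε := by
    refine Eventually.exists (f := 𝓝[>] 0) (Eventually.and
      (eventually_nhdsWithin_of_eventually_nhds ?_) self_mem_nhdsWithin)
    exact ((ContinuousAt.eventually_lt (by fun_prop) (by fun_prop) (by simpa using e0)).and
      (ContinuousAt.eventually_lt (by fun_prop) (by fun_prop) (by simp))).and
      (ContinuousAt.eventually_lt (by fun_prop) (by fun_prop) (by simp))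
  refine ⟨ε, k + 1, ε0, ε3.le, fun ι _ p hp g G κ t w pg pG pκ κ0 hg hG t0 tm hw ht hs => ?_⟩
  rw [← hD]
  obtain ⟨S, hS, S1, S2⟩ := hull ι k D (by omega) (by nlinarith)
  have := fun (r : ℕ) (R : MvPolynomial ι ℚ) (hR : R ∈ S) => comp_target (n + 1) D (g r) R (G r) ε θ
    ε0.le θ0 (hg r).1 (hg r).2 (fun i => (hG r i).1) (fun i => (hG r i).2) (S1 R hR).1
  choose! T T1 T2 T3 using this
  have := fun (r : ℕ) (R : MvPolynomial ι ℚ) (hR : R ∈ S) => S2 (T r R) (T1 r R hR) (by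
    have h1 := (S1 R hR).2 θ θ0 θ1.le
    have h2 := mul_le_mul (h1.trans (show _ ≤ 6 / 5 * e by linarith))
      (ε1.le.trans (show _ ≤ 5 / 4 by linarith)) (by positivity) (by positivity)
    linarith [T2 r R hR])
  choose! V V0 V1 using this
  have ev : ∀ m, ∀ R ∈ S, 1 / 2 ≤ 1 + eval (w m) R ∧ 1 + eval (w m) R ≤ 2 := fun m R hR => by
    have h1 := abs_le.1 ((abs_eval_le (w m) (hw m) R).trans ((S1 R hR).2 ε ε0.le (by linarith)))
    have h2 := mul_le_mul_of_nonneg_left (pow_le_of_le_one ε0.le (by linarith) (n := k) (by omega)) C0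
    constructor <;> linarith [h1.1, h1.2]
  have : NeZero p := ⟨hp.ne'⟩
  obtain ⟨ν, hν⟩ : ∃ ν : ℕ → ZMod p → ℕ, ∀ m r, ν m r = m + p - ((m : ZMod p) - r).val :=
    ⟨_, fun _ _ => rfl⟩
  have ν1 : ∀ m r, ν (m + 1) r = ν m (r - 1) + 1 := fun m r => by
    have := ZMod.val_lt ((m : ZMod p) - (r - 1))
    rw [hν, hν, show ((m + 1 : ℕ) : ZMod p) - r = m - (r - 1) by push_cast; ring]
    omega
  have ν2 : ∀ m r, r.val = ν m r % p := fun m r => by
    have := ZMod.val_lt ((m : ZMod p) - r)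
    rw [← ZMod.val_natCast, hν, Nat.cast_sub (by omega)]
    simp
  refine ⟨ZMod p × MvPolynomial ι ℚ, univ ×ˢ S,
    fun v u => if u.1 = v.1 - 1 then |κ u.1.val ^ D * V u.1.val v.2 u.2| else 0,
    fun m v => t (ν m v.1) ^ D * (1 + eval (w (ν m v.1)) v.2),
    ⟨univ_nonempty.product hS, fun v u => by split_ifs <;> positivity, fun m v hv =>
      mul_pos (pow_pos (t0 _) _) (by linarith [(ev (ν m v.1) _ (mem_product.1 hv).2).1]),
      fun m v hv => ?_⟩, fun m v hv => ?_, fun v hv => frequently_atTop.2 fun a => ?_⟩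
  · have hv' := (mem_product.1 hv).2
    rw [sum_product, sum_eq_single (v.1 - 1) (fun r _ hr => by simp [hr]) (by simp), ν1]
    simp only [if_true]
    rw [ν2 m (v.1 - 1)]
    generalize ν m (v.1 - 1) = a
    have h1 := T3 (a % p) v.2 hv' (w a) (w (a + 1)) (by
      simpa only [pg.map_mod_nat, pG.map_mod_nat] using hs a)
    rw [← V1 _ _ hv', pg.map_mod_nat, map_sum] at h1
    rw [ht, mul_pow, mul_assoc, ← h1, mul_sum, pκ.map_mod_nat]
    refine sum_congr rfl fun R _ => ?_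
    rw [abs_of_nonneg (mul_nonneg (pow_pos (κ0 a) D).le (V0 _ _ hv' R)), smul_eq_C_mul]
    simp only [map_mul, eval_C, map_pow, map_add, map_one, mul_pow, ← pow_mul, mul_comm D]
    ring
  · have h1 := pow_le_pow_left₀ (t0 _).le (tm (show ν m v.1 ≤ m + p by rw [hν]; omega)) D
    rw [mul_comm 2]
    exact mul_le_mul h1 (ev _ _ (mem_product.1 hv).2).2
      (by linarith [(ev (ν m v.1) _ (mem_product.1 hv).2).1]) (pow_pos (t0 _) _).le
  · refine ⟨v.1.val + p * a, by nlinarith, ?_⟩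
    have h1 : ν (v.1.val + p * a) v.1 = v.1.val + p * a + p := by simp [hν]
    have h2 := (ev (v.1.val + p * a + p) _ (mem_product.1 hv).2).1
    have h3 := pow_pos (t0 (v.1.val + p * a + p)) D
    simp only [h1]
    nlinarith

end Pool.Agent.MP_93dc40_an
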