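import Pool.Agent.MP_93dc40_an.Finish
import Pool.Agent.MP_93dc40_an.Orbit
import Pool.Agent.MP_93dc40_an.Chart
import Pool.Agent.MP_93dc40_an.DefsA

namespace Pool.Agent.MP_93dc40_an

open Finset Filter Topology

theorem pp_tendsto {m : ℕ} (n : ℕ) (Q : Matrix (Fin m) (Fin m) ℕ) (a : ℕ → Fin m → ℝ)
    (b : ℕ → ℕ → Fin m → ℚ) (hs : ∀ r, 0 < ∑ k, ∑ j, Q k j * a r j ^ (n + 1))
    (orb : ∀ r, a (r + 1) = nmap (n + 1) Q (a r))
    (h : ∀ r i, Tendsto (fun N => (b N r i : ℝ)) atTop (𝓝 (a r i))) :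
    (∀ r, Tendsto (fun N => (((sg n Q (b N r))⁻¹ : ℚ) : ℝ)) atTop
      (𝓝 (∑ k, ∑ j, Q k j * a r j ^ (n + 1))⁻¹)) ∧
    ∀ k r i j, Tendsto (fun N => (pp n Q (b N) r k i j : ℝ)) atTop
      (𝓝 (jprod (n + 1) Q a r k i j)) := by
  have h1 : ∀ r, Tendsto (fun N => (sg n Q (b N r) : ℝ)) atTop
      (𝓝 (∑ k, ∑ j, Q k j * a r j ^ (n + 1))) := fun r => by
    simp only [sg]
    push_cast
    exact tendsto_finsetSum _ fun k _ => tendsto_finsetSum _ fun j _ => ((h r j).pow _).const_mul _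
  refine ⟨fun r => by simpa using (h1 r).inv₀ (hs r).ne', fun k => ?_⟩
  induction k with
  | zero =>
    intro r i j
    simp only [pp, jprod, Matrix.one_apply]
    split_ifs <;> simp
  | succ k ih =>
    intro r i j
    simp only [pp, jprod, Matrix.mul_apply]
    push_cast
    refine tendsto_finsetSum _ fun l _ => (ih _ _ _).mul ?_
    simp only [lam, jac, ← orb, Nat.add_sub_cancel]
    push_cast
    exact ((((h r j).pow n).const_mul _).mul (((h (r + 1) l).mul_const _).const_sub _)).div (h1 r)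
      (hs r).ne'

theorem attract (d : ℕ) (hd : 3 ≤ d) (ho : Odd d) {m : ℕ} (Q : Matrix (Fin m) (Fin m) ℕ)
    (hQ : ∀ i, ∃ j, 0 < Q i j) (p : ℕ) (hp : 0 < p) (a : ℕ → Fin m → ℝ)
    (per : Function.Periodic a p) (hs : ∀ r, 0 < ∑ k, ∑ j, Q k j * a r j ^ d)
    (orb : ∀ r, a (r + 1) = nmap d Q (a r))
    (conv : ∀ i, Tendsto (fun n => (cnt d Q n i : ℝ) / ∑ k, (cnt d Q n k : ℝ) - a n i) atTop (𝓝 0))
    (att : ∀ r i, ∑ j, |jprod d Q a r p i j| < 1) :
    ∃ L₀ : ℕ, 1 ≤ L₀ ∧ ∀ L, 1 ≤ L → L₀ ∣ L →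
      ∀ (k : ℕ) (M : Matrix (Fin k) (Fin k) ℕ) (π : Fin k → Fin m), IsBinary M →
        Function.Surjective π → (∀ v j, ∑ w with π w = j, M v w = L * Q (π v) j) →
        ∃ (k' : ℕ) (N : Matrix (Fin k') (Fin k') ℕ) (h : ℝ),
          IsBinary N ∧ IsIrred N ∧ HasEntropy d M h ∧ HasEntropy d N h := by
  classical
  obtain ⟨n, rfl⟩ : ∃ n, d = n + 1 := ⟨d - 1, by omega⟩
  have m0 : (univ : Finset (Fin m)).Nonempty := by
    obtain ⟨k, hk, -⟩ := exists_ne_zero_of_sum_ne_zero (hs 0).ne'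
    exact ⟨k, hk⟩
  have mono : ∀ j i, 1 ≤ cnt (n + 1) Q j i ∧ cnt (n + 1) Q j i ≤ cnt (n + 1) Q (j + 1) i :=
    fun j => by
      induction j with
      | zero =>
        intro i
        obtain ⟨l, hl⟩ := hQ i
        exact ⟨le_rfl, sum_pos' (fun _ _ => Nat.zero_le _) ⟨l, mem_univ _, by simpa [cnt] using hl⟩⟩
      | succ j ih =>
        exact fun i => ⟨(ih i).1.trans (ih i).2, sum_le_sum fun l _ =>
          Nat.mul_le_mul_left _ (Nat.pow_le_pow_left (ih l).2 _)⟩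
  obtain ⟨x, hx⟩ : ∃ x : ℕ → Fin m → ℚ, ∀ j i, x j i = cnt (n + 1) Q j i := ⟨_, fun _ _ => rfl⟩
  obtain ⟨s, hS⟩ : ∃ s : ℕ → ℚ, ∀ j, s j = ∑ i, x j i := ⟨_, fun _ => rfl⟩
  obtain ⟨u, hu⟩ : ∃ u : ℕ → Fin m → ℚ, ∀ j i, u j i = x j i / s j := ⟨_, fun _ _ => rfl⟩
  have x0 : ∀ j i, 0 < x j i := fun j i => by rw [hx]; exact_mod_cast (mono j i).1
  have s0 : ∀ j, 0 < s j := fun j => hS j ▸ sum_pos (fun i _ => x0 j i) m0
  have xs : ∀ j i, x j i ≤ s j := fun j i =>
    hS j ▸ single_le_sum (f := x j) (fun l _ => (x0 j l).le) (mem_univ i)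
  have sm : Monotone s := monotone_nat_of_le_succ fun j => by
    rw [hS, hS]
    exact sum_le_sum fun i _ => by rw [hx, hx]; exact_mod_cast (mono j i).2
  have u1 : ∀ j i, |u j i| ≤ 1 := fun j i => by
    rw [hu, abs_of_pos (div_pos (x0 j i) (s0 j))]
    exact (div_le_one (s0 j)).2 (xs j i)
  have xr : ∀ j i, x (j + 1) i = s j ^ (n + 1) * ∑ l, Q i l * u j l ^ (n + 1) := fun j i => by
    have := s0 j
    rw [hx, cnt, mul_sum]
    push_cast
    refine sum_congr rfl fun l _ => ?_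
    rw [hu, hx, div_pow]
    field_simp
  have sr : ∀ j, s (j + 1) = s j ^ (n + 1) * sg n Q (u j) := fun j => by
    simp only [hS (j + 1), xr, sg, ← mul_sum]
  have sg0 : ∀ j, 0 < sg n Q (u j) := fun j =>
    pos_of_mul_pos_left ((s0 (j + 1)).trans_eq ((sr j).trans (mul_comm _ _))) (pow_pos (s0 j) _).le
  have ur : ∀ j i, u (j + 1) i = (∑ l, Q i l * u j l ^ (n + 1)) / sg n Q (u j) := fun j i => by
    rw [hu, xr, sr, mul_div_mul_left _ _ (pow_pos (s0 j) _).ne']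
  have conv' : ∀ i, Tendsto (fun j => (u j i : ℝ) - a j i) atTop (𝓝 0) := fun i => by
    simp only [hu, hS, hx]
    push_cast
    exact conv i
  obtain ⟨b, hb⟩ : ∃ b : ℕ → ℕ → Fin m → ℚ, ∀ N r, b N r = u (p * N + r % p) := ⟨_, fun _ _ => rfl⟩
  have am : ∀ N r, a (p * N + r) = a r := fun N r => by
    rw [← per.map_mod_nat, Nat.mul_add_mod, per.map_mod_nat]
  obtain ⟨lim1, lim2⟩ := pp_tendsto n Q a b hs orb fun r i => by
    have := ((conv' i).comp (tendsto_atTop_mono (g := fun N => p * N + r % p) (fun N => by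
      dsimp only [id]; nlinarith [Nat.zero_le (r % p)]) tendsto_id)).add_const (a r i)
    simpa [Function.comp_def, hb, am, per.map_mod_nat] using this
  obtain ⟨θ, ⟨hθ, θ0⟩, θ1⟩ : ∃ θ : ℚ, ((∀ r ∈ range p, ∀ i,
      ∑ j, |jprod (n + 1) Q a r p i j| < (θ : ℝ) ^ p) ∧ 0 < θ) ∧ θ < 1 := by
    refine Eventually.exists (f := 𝓝[<] 1) (Eventually.and
      (eventually_nhdsWithin_of_eventually_nhds (Eventually.and ((eventually_all_finset _).2
        fun r _ => eventually_all.2 fun i => ?_) (lt_mem_nhds one_pos))) self_mem_nhdsWithin)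
    exact ContinuousAt.eventually_lt continuousAt_const
      (Rat.continuous_coe_real.pow p).continuousAt (by simpa using att r i)
  obtain ⟨ε, q, ε0, ε1, hsys⟩ := orbit_sys n (by omega) ho ((1 + θ) / 2) (by linarith) (by linarith)
  obtain ⟨K, K1, hK⟩ := expand_bound n 1 zero_le_one
  obtain ⟨A1, A10, e1⟩ := ev_bound (range p) _ _ fun r _ => lim1 r
  obtain ⟨A2, A20, e2⟩ := ev_bound (range p ×ˢ range p ×ˢ (univ : Finset (Fin m × Fin m))) _ _
    fun z _ => lim2 z.2.1 z.1 z.2.2.1 z.2.2.2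
  obtain ⟨A, hA⟩ : ∃ A, A = A1 + A2 := ⟨_, rfl⟩
  have A0 : 0 < A := by linarith
  obtain ⟨c, hc⟩ : ∃ c : ℚ, c = ∑ j, ∑ k, (Q k j : ℚ) := ⟨_, rfl⟩
  have c0 : ∀ j, 0 ≤ ∑ k, (Q k j : ℚ) := fun j => sum_nonneg fun _ _ => by positivity
  obtain ⟨l, ⟨⟨l2, l3⟩, l1⟩, l0⟩ : ∃ l : ℚ, ((m * (A * c * (K * l)) < ε ∧
      m * (θ⁻¹ ^ p * A * (m * (A * (2 * c) * (K * l)))) < (1 - θ) / 4) ∧ l < 1) ∧ 0 < l := by
    refine Eventually.exists (f := 𝓝[>] 0) (Eventually.and
      (eventually_nhdsWithin_of_eventually_nhds ?_) self_mem_nhdsWithin)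
    exact ((ContinuousAt.eventually_lt (by fun_prop) (by fun_prop) (by simpa using ε0)).and
      (ContinuousAt.eventually_lt (by fun_prop) (by fun_prop) (by simpa using θ1))).and
      (ContinuousAt.eventually_lt (by fun_prop) (by fun_prop) (by simp))
  obtain ⟨δ, ⟨δ1, δ2⟩, δ0⟩ : ∃ δ : ℚ, (l⁻¹ * θ⁻¹ ^ p * (m * (A * δ)) < ε ∧
      m * (l⁻¹ * θ⁻¹ ^ p * A * δ) < (1 - θ) / 4) ∧ 0 < δ := by
    refine Eventually.exists (f := 𝓝[>] 0) (Eventually.and
      (eventually_nhdsWithin_of_eventually_nhds ?_) self_mem_nhdsWithin)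
    exact (ContinuousAt.eventually_lt (by fun_prop) (by fun_prop) (by simpa using ε0)).and
      (ContinuousAt.eventually_lt (by fun_prop) (by fun_prop) (by simpa using θ1))
  have e3 : ∀ᶠ N in atTop, ∀ r ∈ range p, ∀ i, ∑ j, |pp n Q (b N) r p i j| ≤ θ ^ p :=
    (eventually_all_finset _).2 fun r hr => eventually_all.2 fun i => by
      filter_upwards [(tendsto_finsetSum univ fun j _ => (lim2 p r i j).abs).eventually
        (gt_mem_nhds (hθ r hr i))] with N hN
      exact_mod_cast hN.le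
  have e4 : ∀ᶠ j in atTop, ∀ i, |(u j i : ℝ) - a j i| < δ / 2 := eventually_all.2 fun i => by
    have : (0 : ℝ) < δ := by exact_mod_cast δ0
    exact (conv' i).abs.eventually (gt_mem_nhds (by simpa using this))
  obtain ⟨n0, hn0⟩ := eventually_atTop.1 e4
  obtain ⟨N, ⟨⟨f1, f2⟩, f3⟩, f4⟩ := (((e1.and e2).and e3).and (eventually_ge_atTop n0)).exists
  have close : ∀ j j', a j = a j' → ∀ i, |u (p * N + j) i - u (p * N + j') i| ≤ δ := fun j j' h i => by
    have h1 := abs_lt.1 (hn0 (p * N + j) (by nlinarith) i)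
    have h2 := abs_lt.1 (hn0 (p * N + j') (by nlinarith) i)
    rw [am] at h1 h2
    rw [h] at h1
    have : |(u (p * N + j) i : ℝ) - u (p * N + j') i| ≤ δ :=
      abs_le.2 ⟨by linarith [h1.1, h2.2], by linarith [h1.2, h2.1]⟩
    exact_mod_cast this
  have bp : Function.Periodic (b N) p := fun r => by simp [hb]
  have Pp : Function.Periodic (pp n Q (b N)) p := fun r => funext fun k => pp_periodic n Q _ p bp k r
  have md : ∀ r, r % p ∈ range p := fun r => mem_range.2 (Nat.mod_lt _ hp)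
  have PA : ∀ r, ∀ k < p, ∀ i j, |pp n Q (b N) r k i j| ≤ A := fun r k hk i j => by
    have := f2 (r % p, k, i, j) (by simp [Nat.mod_lt _ hp, hk])
    rw [Pp.map_mod_nat] at this
    linarith
  have κ0 : ∀ r, 0 < sg n Q (b N r) := fun r => hb N r ▸ sg0 _
  have κA : ∀ r, (sg n Q (b N r))⁻¹ ≤ A := fun r => by
    have := f1 _ (md r)
    rw [bp.map_mod_nat] at this
    linarith [le_abs_self (sg n Q (b N r))⁻¹]
  have := fun r => chart n Q p hp K A c l θ δ (hK _) l0 l1.le θ0 θ1.le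
    (fun j => hc ▸ single_le_sum (fun j _ => c0 j) (mem_univ j)) (b N r) (b N (r + 1))
    (pp n Q (b N) r) (pp n Q (b N) (r + 1)) rfl (fun _ => rfl) (hb N r ▸ u1 _) (hb N (r + 1) ▸ u1 _)
    (κ0 r) (κA r) (PA _) (Pp.map_mod_nat r ▸ f3 _ (md r)) fun i => by
      rw [hb, hb, ← ur, add_assoc]
      exact close _ _ (by rw [per.map_mod_nat, orb, orb, per.map_mod_nat]) i
  choose g G g1 G1 ev using this
  obtain ⟨w, hw⟩ : ∃ w : ℕ → Fin p × Fin m → ℚ, ∀ j i, w j i = l⁻¹ * θ⁻¹ ^ (i.1 : ℕ) *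
    ∑ k, pp n Q (b N) j i.1 i.2 k * (u (p * N + j) k - b N j k) := ⟨_, fun _ _ => rfl⟩
  have ev' := fun j => ev (j % p) (u (p * N + j)) (w j) (by
    simpa only [Pp.map_mod_nat, bp.map_mod_nat] using hw j)
  have sh : ∀ {β : Type} {f : ℕ → β}, Function.Periodic f p → ∀ j, f (j % p + 1) = f (j + 1) :=
    fun hf j => by rw [← hf.map_mod_nat, Nat.mod_add_mod, hf.map_mod_nat]
  simp only [sh Pp, sh bp, bp.map_mod_nat] at ev'
  have wε : ∀ j i, |w j i| ≤ ε := fun j i => by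
    have θ2 : 1 ≤ θ⁻¹ := (one_le_inv₀ θ0).2 θ1.le
    rw [hw, abs_mul, abs_of_pos (by positivity)]
    refine le_trans (mul_le_mul (mul_le_mul_of_nonneg_left (pow_le_pow_right₀ θ2 i.1.2.le)
      (by positivity)) ((abs_sum_le_sum_abs _ _).trans ((sum_le_card_nsmul _ _ (A * δ)
        fun k _ => ?_).trans_eq (by simp))) (abs_nonneg _) (by positivity)) δ1.le
    rw [abs_mul, hb]
    exact mul_le_mul (PA _ _ i.1.2 _ _) (close _ _ (per.map_mod_nat j).symm k) (abs_nonneg _) A0.le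
  have tr : ∀ j, s (p * N + (j + 1)) =
      sg n Q (b N j) * s (p * N + j) ^ (n + 1) * MvPolynomial.eval (w j) (g (j % p)) := fun j => by
    rw [← add_assoc, sr, ← (ev' j).1]
    ring
  obtain ⟨α, S, W, γ, sys, γ1, γ2⟩ := hsys (Fin p × Fin m) p hp (fun r => g (r % p))
    (fun r => G (r % p)) (fun r => sg n Q (b N r)) (fun j => s (p * N + j)) w
    (fun r => by simp) (fun r => by simp) (fun r => by simp only [bp r]) κ0
    (fun r => ⟨(g1 _).1, (g1 _).2.trans l2.le⟩)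
    (fun r i => ⟨(G1 _ i).1, (G1 _ i).2.trans (by
      have : m * (l⁻¹ * θ⁻¹ ^ p * A * (δ + m * (A * (2 * c) * (K * l ^ 2)))) =
          m * (l⁻¹ * θ⁻¹ ^ p * A * δ) + m * (θ⁻¹ ^ p * A * (m * (A * (2 * c) * (K * l)))) := by
        field_simp
      linarith)⟩)
    (fun j => s0 _) (fun i j h => sm (by omega)) wε tr fun j i => by
      refine mul_left_cancel₀ (κ0 j).ne' ?_
      rw [← mul_assoc, (ev' j).1, (ev' j).2, hw, mul_left_comm, mul_sum]
      congr 1
      refine sum_congr rfl fun k _ => ?_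
      have := sg0 (p * N + j)
      rw [← add_assoc, ur]
      field_simp
  obtain ⟨C, C0, hC⟩ := growth (n + 1) (fun j => s (p * N + j)) (m * c + 2 * A)
    (by have := hc ▸ sum_nonneg fun j _ => c0 j; positivity) (fun j => s0 _) (fun j => by
      have h0 := pow_pos (s0 (p * N + j)) (n + 1)
      have h1 : sg n Q (u (p * N + j)) ≤ m * c := by
        rw [sg_eq]
        refine (sum_le_card_nsmul _ _ c fun k _ => ?_).trans_eq (by simp)
        exact (mul_le_of_le_one_right (c0 k) ((le_abs_self _).trans ((abs_pow _ _).trans_le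
          (pow_le_one₀ (abs_nonneg _) (u1 _ k))))).trans
          (hc ▸ single_le_sum (fun j _ => c0 j) (mem_univ k))
      have h2 := abs_le.1 ((abs_eval_le (w j) (fun i => (wε j i).trans (by linarith))
        (g (j % p) - 1)).trans ((g1 _).2.trans (l2.le.trans ε1)))
      rw [map_sub, map_one] at h2
      have h3 : 1 ≤ A * sg n Q (b N j) := (inv_le_iff_one_le_mul₀ (κ0 j)).1 (κA j)
      have h4 : 1 ≤ 2 * A * sg n Q (u (p * N + j)) := by
        rw [← (ev' j).1]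
        nlinarith [h2.1]
      have h5 := sg0 (p * N + j)
      rw [← add_assoc, sr]
      constructor <;> nlinarith [mul_pos h0 h5, mul_pos h0 A0, mul_pos (mul_pos h0 h5) h5]) q
  have m1 : (1 : ℚ) ≤ m := by exact_mod_cast card_fin m ▸ card_pos.2 m0
  obtain ⟨L₀, L1, hL⟩ := finish' (n + 1) (by omega) sys (p * N + p + q)
    (fun j => s (p * N + (j + p)) ^ (n + 1) ^ q) (2 + C * m) (by positivity)
    (fun j v hv => (γ1 j v hv).trans (mul_le_mul_of_nonneg_right (le_add_of_nonneg_right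
      (by positivity)) (pow_pos (s0 _) _).le))
    fun v hv => (γ2 v hv).mono fun j h => h.trans (mul_le_mul_of_nonneg_right
      (le_add_of_nonneg_right (by positivity)) (sys.pos j v hv).le)
  refine ⟨L₀, L1, fun L L2 L3 k M π bM sπ eq => ?_⟩
  have fib : ∀ v (g : Fin m → ℕ), ∑ w, M v w * g (π w) = L * ∑ j, Q (π v) j * g j := fun v g => by
    rw [← sum_fiberwise univ π, mul_sum]
    refine sum_congr rfl fun j _ => ?_
    rw [← mul_assoc, ← eq, sum_mul]
    exact sum_congr rfl fun w hw => by rw [(mem_filter.1 hw).2]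
  have val : ∀ j v, rtd (n + 1) M j v = sc (n + 1) L j * cnt (n + 1) Q j (π v) := fun j => by
    induction j with
    | zero => exact fun v => rfl
    | succ j ih =>
      intro v
      simp only [rtd, ih, sc, cnt,
        fib v fun i => (sc (n + 1) L j * cnt (n + 1) Q j i) ^ (n + 1), mul_assoc]
      rw [mul_sum, mul_sum, mul_sum]
      exact sum_congr rfl fun i _ => by ring
  have idx : ∀ j, j + (p * N + p + q) = p * N + (j + p + q) := fun j => by omega
  obtain ⟨i0, -⟩ := id m0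
  obtain ⟨v0, -⟩ := sπ i0
  refine hL L L2 L3 k M (Fin.pos v0) bM (fun v => ?_) (fun j v => ?_) fun j => ?_
  · obtain ⟨j, hj⟩ := hQ (π v)
    obtain ⟨w, -, hw⟩ := exists_ne_zero_of_sum_ne_zero ((eq v j).trans_ne (Nat.mul_pos L2 hj).ne')
    exact ⟨w, (bM v w).resolve_left hw⟩
  · rw [val, Nat.cast_mul, ← hx]
    refine mul_le_mul_of_nonneg_left ((xs _ _).trans ?_) (by positivity)
    rw [idx]
    exact (hC (j + p)).1.trans (mul_le_mul_of_nonneg_right (by nlinarith) (pow_pos (s0 _) _).le)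
  · obtain ⟨i, -, hi⟩ := exists_max_image univ (x (j + (p * N + p + q))) m0
    obtain ⟨v, rfl⟩ := sπ i
    refine ⟨v, ?_⟩
    rw [val, Nat.cast_mul, ← hx, mul_left_comm]
    refine mul_le_mul_of_nonneg_left ((hC (j + p)).2.trans ?_) (by positivity)
    have h1 := sum_le_card_nsmul _ _ _ hi
    rw [← hS, card_fin, nsmul_eq_mul] at h1
    rw [← idx]
    nlinarith [x0 (j + (p * N + p + q)) (π v)]

end Pool.Agent.MP_93dc40_an
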