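import Mathlib

namespace Pool.Agent.MP_93dc40_an

open Filter Topology

/-- all entries are `0` or `1` -/
def IsBinary {k : ℕ} (M : Matrix (Fin k) (Fin k) ℕ) : Prop := ∀ i j, M i j = 0 ∨ M i j = 1

/-- irreducible matrices -/
def IsIrred {k : ℕ} (M : Matrix (Fin k) (Fin k) ℕ) : Prop := ∀ i j, ∃ n, 1 ≤ n ∧ 0 < (M ^ n) i j

/-- the hom Markov tree-shift on the rooted `d`-ary tree -/
def TreeShift (d : ℕ) {k : ℕ} (M : Matrix (Fin k) (Fin k) ℕ) : Set (List (Fin d) → Fin k) :=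
  {t | ∀ g i, M (t g) (t (g ++ [i])) = 1}

/-- the number of restrictions of points of the tree-shift to the words of length at most `n` -/
noncomputable def blocks (d : ℕ) {k : ℕ} (M : Matrix (Fin k) (Fin k) ℕ) (n : ℕ) : ℕ :=
  ((fun (t : List (Fin d) → Fin k) (g : {g : List (Fin d) // g.length ≤ n}) => t g.1) ''
    TreeShift d M).ncard

/-- the tree-shift is nonempty and has entropy `h` -/
def HasEntropy (d : ℕ) {k : ℕ} (M : Matrix (Fin k) (Fin k) ℕ) (h : ℝ) : Prop :=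
  (TreeShift d M).Nonempty ∧
    Tendsto (fun n : ℕ => Real.log (blocks d M n) / (((d : ℝ) ^ (n + 1) - 1) / (d - 1))) atTop (𝓝 h)

end Pool.Agent.MP_93dc40_an
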