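import Pool.Agent.MP_93dc40_an.MvNorm
import Pool.Agent.MP_93dc40_an.Cone

namespace Pool.Agent.MP_93dc40_an

open Finset MvPolynomial

variable {ι : Type}

/-- pairing of a coefficient vector with a polynomial -/
noncomputable def pr (I : Finset (ι →₀ ℕ)) (μ : (ι →₀ ℕ) → ℝ) : MvPolynomial ι ℚ →ₗ[ℚ] ℝ where
  toFun p := ∑ γ ∈ I, μ γ * (coeff γ p : ℚ)
  map_add' p q := by simp [mul_add, sum_add_distrib]
  map_smul' c p := by simp [mul_sum, mul_left_comm, Rat.smul_def]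

theorem pr_apply (I : Finset (ι →₀ ℕ)) (μ : (ι →₀ ℕ) → ℝ) (p : MvPolynomial ι ℚ) :
    pr I μ p = ∑ γ ∈ I, μ γ * (coeff γ p : ℚ) := rfl

theorem pr_le (I : Finset (ι →₀ ℕ)) (μ : (ι →₀ ℕ) → ℝ) (A : ℝ) (hA : 0 ≤ A) (h : ∀ γ ∈ I, |μ γ| ≤ A)
    {p : MvPolynomial ι ℚ} {c : ℚ} (hp : nrm 1 p ≤ c) : |pr I μ p| ≤ c * A := by
  classical
  have h1 : ∑ γ ∈ I, |coeff γ p| ≤ c := by
    refine le_trans ?_ hp
    rw [nrm_eq 1 p (I ∪ p.support) subset_union_right]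
    simpa using sum_le_sum_of_subset_of_nonneg subset_union_left fun _ _ _ => abs_nonneg _
  have h2 : ∑ γ ∈ I, |((coeff γ p : ℚ) : ℝ)| ≤ c := by exact_mod_cast h1
  refine (abs_sum_le_sum_abs _ _).trans (le_trans ?_ (mul_le_mul_of_nonneg_right h2 hA))
  rw [sum_mul]
  refine sum_le_sum fun γ hγ => ?_
  rw [abs_mul, mul_comm]
  exact mul_le_mul_of_nonneg_left (h γ hγ) (abs_nonneg _)

theorem pr_monomial (I : Finset (ι →₀ ℕ)) (μ : (ι →₀ ℕ) → ℝ) {γ : ι →₀ ℕ} (h : γ ∈ I) (c : ℚ) :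
    pr I μ (monomial γ c) = μ γ * c := by
  classical
  simp [pr_apply, coeff_monomial, apply_ite, h]

theorem exists_sign (x : ℝ) : ∃ σ : ℚ, |σ| = 1 ∧ x * σ = -|x| := by
  rcases le_total 0 x with h | h
  · exact ⟨-1, by simp, by simp [abs_of_nonneg h]⟩
  · exact ⟨1, by simp, by simp [abs_of_nonpos h]⟩

/-- all monomials have degree at least `k` -/
def High (k : ℕ) (p : MvPolynomial ι ℚ) : Prop := ∀ γ ∈ p.support, k ≤ γ.degree

theorem High.mul {k : ℕ} {p : MvPolynomial ι ℚ} (h : High k p) (q : MvPolynomial ι ℚ) :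
    High k (p * q) := fun γ hγ => by
  classical
  obtain ⟨a, ha, b, -, rfl⟩ := mem_add.1 (support_mul p q hγ)
  rw [map_add]
  exact (h a ha).trans (Nat.le_add_right _ _)

theorem High.add {k : ℕ} {p q : MvPolynomial ι ℚ} (hp : High k p) (hq : High k q) :
    High k (p + q) := fun γ hγ => by
  classical
  exact (mem_union.1 (support_add hγ)).elim (hp γ) (hq γ)

theorem High.monomial {k : ℕ} {γ : ι →₀ ℕ} (h : k ≤ γ.degree) (c : ℚ) : High k (monomial γ c) :=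
  fun _ hδ => mem_singleton.1 (support_monomial_subset hδ) ▸ h

theorem High.nrm_le {k : ℕ} {p : MvPolynomial ι ℚ} (h : High k p) {θ : ℚ} (h0 : 0 ≤ θ) (h1 : θ ≤ 1) :
    nrm θ p ≤ nrm 1 p * θ ^ k := by
  rw [nrm, nrm, sum_mul]
  refine sum_le_sum fun γ hγ => ?_
  rw [one_pow, mul_one]
  exact mul_le_mul_of_nonneg_left (pow_le_pow_of_le_one h0 h1 (h γ hγ)) (abs_nonneg _)

theorem deg_monomial (γ : ι →₀ ℕ) (c : ℚ) : (monomial γ c).totalDegree ≤ γ.degree :=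
  totalDegree_monomial_le γ c

theorem list_monomials (k D : ℕ) : ∀ l : List (MvPolynomial ι ℚ),
    (∀ p ∈ l, ∃ δ : ι →₀ ℕ, k ≤ δ.degree ∧ δ.degree ≤ D ∧ p = monomial δ 1) →
      High k l.sum ∧ l.sum.totalDegree ≤ D ∧ nrm 1 l.sum ≤ l.length
  | [], _ => ⟨by simp [High], by simp, by simp [nrm_zero]⟩
  | p :: l, h => by
    obtain ⟨δ, h1, h2, rfl⟩ := h p (by simp)
    obtain ⟨i1, i2, i3⟩ := list_monomials k D l fun q hq => h q (by simp [hq])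
    rw [List.sum_cons, List.length_cons]
    refine ⟨(High.monomial h1 1).add i1, (totalDegree_add _ _).trans
      (max_le ((deg_monomial _ _).trans h2) i2), (nrm_add zero_le_one _ _).trans ?_⟩
    rw [nrm_monomial]
    push_cast
    simp only [abs_one, one_pow]
    linarith

theorem prod_monomials : ∀ l : List (ι →₀ ℕ),
    (l.map fun δ => (monomial δ 1 : MvPolynomial ι ℚ)).prod = monomial l.sum 1
  | [] => by simp
  | a :: l => by simp [prod_monomials l, monomial_mul]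

/-- a polynomial of high order on which the functional is very negative -/
theorem exists_high (n : ℕ) (hn : 1 ≤ n) (ho : Odd (n + 1)) : ∃ C η : ℚ, 0 ≤ C ∧ 0 < η ∧
    ∀ (ι : Type) (k D : ℕ), (n + 1) * k ≤ D + 1 → k ≤ D → ∀ (I : Finset (ι →₀ ℕ))
      (μ : (ι →₀ ℕ) → ℝ) (γ : ι →₀ ℕ), γ ∈ I → k ≤ γ.degree → γ.degree ≤ (n + 1) * D →
      (∀ δ ∈ I, |μ δ| ≤ |μ γ|) → ∃ h : MvPolynomial ι ℚ, High k h ∧ h.totalDegree ≤ D ∧
        nrm 1 h ≤ C ∧ pr I μ ((1 + h) ^ (n + 1) - 1) ≤ -η * |μ γ| := by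
  obtain ⟨K, K1, hK⟩ := expand_bound n 1 zero_le_one
  obtain ⟨K', K2, hK'⟩ := expand_bound n (n + 1) (by positivity)
  obtain ⟨E, hE⟩ : ∃ E : ℚ, E = 2 ^ (n + 1) * (K' + 2) := ⟨_, rfl⟩
  have p2 : (1 : ℚ) ≤ 2 ^ (n + 1) := one_le_pow₀ one_le_two
  have E1 : 1 ≤ E := by nlinarith
  have K0 : 0 < K⁻¹ := by positivity
  have K3 : K⁻¹ ≤ 1 := inv_le_one_of_one_le₀ K1
  refine ⟨E * (n + 1), K⁻¹, by positivity, K0, fun ι k D h1 h2 I μ γ hI g1 g2 hm => ?_⟩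
  have B0 := abs_nonneg (μ γ)
  rcases le_or_gt γ.degree D with hD | hD
  · obtain ⟨σ, σ1, σ2⟩ := exists_sign (μ γ)
    have e1 : nrm 1 (monomial γ (σ * K⁻¹)) = K⁻¹ := by
      simp [nrm_monomial, abs_mul, σ1, abs_of_pos (zero_lt_one.trans_le K1)]
    refine ⟨monomial γ (σ * K⁻¹), High.monomial g1 _, (deg_monomial _ _).trans hD,
      e1.trans_le (K3.trans (by nlinarith)), ?_⟩
    have e2 := (abs_le.1 (pr_le I μ _ B0 hm
      (hK ι 1 _ K⁻¹ (nrm_one 1).le e1.le K3).2)).2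
    rw [map_sub, one_pow, one_pow, one_mul, C_mul_monomial, pr_monomial I μ hI,
      show K * K⁻¹ ^ 2 = K⁻¹ by field_simp] at e2
    have K0' : (0 : ℝ) < (K⁻¹ : ℚ) := by exact_mod_cast K0
    have n1 : (1 : ℝ) ≤ n := by exact_mod_cast hn
    generalize K⁻¹ = κ at *
    push_cast at e2
    have e3 : μ γ * ((n + 1) * (σ * κ)) = -((n + 1) * κ * |μ γ|) := by
      linear_combination (n + 1) * κ * σ2
    nlinarith [mul_nonneg K0'.le B0]
  · obtain ⟨l, l1, l2, l3⟩ := split_exp k D h2 n γ (by omega) g2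
    obtain ⟨s, s1, s2⟩ := polar (pr I μ) (l.map fun δ => monomial δ 1)
    rw [prod_monomials, l2, pr_monomial I μ hI, List.length_map, l1, Rat.cast_one, mul_one] at s2
    obtain ⟨m1, m2, m3⟩ := list_monomials k D s fun p hp => by
      obtain ⟨δ, hδ, rfl⟩ := List.mem_map.1 (s1.subset hp)
      exact ⟨δ, (l3 δ hδ).1, (l3 δ hδ).2, rfl⟩
    have m4 : nrm 1 s.sum ≤ n + 1 := m3.trans (by
      have := s1.length_le
      rw [List.length_map, l1] at this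
      exact_mod_cast this)
    obtain ⟨y, y1, y2, y3, y4⟩ : ∃ y : MvPolynomial ι ℚ, High k y ∧ y.totalDegree ≤ D ∧
        nrm 1 y ≤ n + 1 ∧ 2 ^ (n + 1) * pr I μ (y ^ (n + 1)) ≤ -|μ γ| := by
      rcases le_total 0 (pr I μ (s.sum ^ (n + 1))) with h | h
      · refine ⟨-s.sum, by simpa using m1.mul (-1), by simpa using m2, by rwa [nrm_neg], ?_⟩
        rw [abs_of_nonneg h] at s2
        rw [ho.neg_pow, map_neg]
        linarith
      · rw [abs_of_nonpos h] at s2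
        exact ⟨_, m1, m2, m4, by linarith⟩
    have E0 : 0 < E := by linarith
    refine ⟨y * C E, y1.mul _, (totalDegree_mul _ _).trans (by simpa using y2), ?_, ?_⟩
    · rw [mul_comm E]
      exact nrm_mul_le y3 (by rw [nrm_C, abs_of_pos E0])
    have e1 := (abs_le.1 (pr_le I μ _ B0 hm (hK' ι y (C E⁻¹) E⁻¹ y3
      (by rw [nrm_C, abs_of_pos (inv_pos.2 E0)]) (inv_le_one_of_one_le₀ E1)).1)).2
    have e2 := (abs_le.1 (pr_le I μ _ B0 hm (nrm_one (ι := ι) 1).le)).1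
    have e3 : (1 + y * C E) ^ (n + 1) = (E ^ (n + 1)) • (y + C E⁻¹) ^ (n + 1) := by
      rw [← smul_pow, smul_add, smul_eq_C_mul, smul_eq_C_mul, ← map_mul, mul_inv_cancel₀ E0.ne',
        map_one, add_comm, mul_comm]
    rw [map_sub] at e1
    rw [map_sub, e3, map_smul, Rat.smul_def]
    have E2 : (E : ℝ) ≤ (E ^ (n + 1) : ℚ) := by exact_mod_cast le_self_pow₀ E1 (by omega)
    have E0' : (0 : ℝ) < E := by exact_mod_cast E0
    have K4 : ((K⁻¹ : ℚ) : ℝ) ≤ 1 := by exact_mod_cast K3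
    have K5 : (0 : ℝ) ≤ K' + 2 := by exact_mod_cast (by linarith : (0 : ℚ) ≤ K' + 2)
    have hE' : (E : ℝ) = 2 ^ (n + 1) * (K' + 2) := by exact_mod_cast hE
    have e4 : (E : ℝ) * pr I μ ((y + C E⁻¹) ^ (n + 1)) ≤ -2 * |μ γ| := by
      have f1 := mul_le_mul_of_nonneg_left e1 E0'.le
      have f2 := mul_le_mul_of_nonneg_left y4 K5
      have f3 : (E : ℝ) * ((K' * E⁻¹ : ℚ) * |μ γ|) = K' * |μ γ| := by
        push_cast
        field_simp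
      rw [f3, mul_sub] at f1
      rw [← mul_assoc, mul_comm _ ((2 : ℝ) ^ (n + 1)), ← hE'] at f2
      linarith
    have e5 : pr I μ ((y + C E⁻¹) ^ (n + 1)) ≤ 0 :=
      nonpos_of_mul_nonpos_right (e4.trans (by linarith)) E0'
    have e6 := mul_le_mul_of_nonpos_right E2 e5
    push_cast at e2
    nlinarith

theorem exists_good (n : ℕ) (hn : 2 ≤ n) (ho : Odd (n + 1)) : ∃ C ε : ℚ, 0 ≤ C ∧ 0 < ε ∧ ε ≤ 1 / 4 ∧
    ∀ (ι : Type) (k D : ℕ), (n + 1) * k ≤ D + 1 → k ≤ D → ∀ (I : Finset (ι →₀ ℕ))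
      (μ : (ι →₀ ℕ) → ℝ), (∀ γ ∈ I, γ.degree ≤ (n + 1) * D) → (∃ γ ∈ I, 1 ≤ |μ γ|) →
      ∃ R : MvPolynomial ι ℚ, (R.totalDegree ≤ D ∧ ∀ θ, 0 ≤ θ → θ ≤ 1 → nrm θ R ≤ ε + C * θ ^ k) ∧
        pr I μ ((1 + R) ^ (n + 1) - 1) < -(2 * ε) := by
  obtain ⟨C, η, C0, η0, hC⟩ := exists_high n (by omega) ho
  obtain ⟨K, K1, hK⟩ := expand_bound n (1 + C) (by linarith)
  obtain ⟨ε, ε0, ε1, ε2, ε3⟩ : ∃ ε : ℚ, 0 < ε ∧ ε ≤ 1 / 4 ∧ ε * K ≤ 1 / 2 ∧ ε * (K + 3) ≤ η := by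
    refine ⟨min (min (1 / 4) (1 / 2 / K)) (η / (K + 3)), by positivity,
      (min_le_left _ _).trans (min_le_left _ _), ?_, ?_⟩
    · exact (le_div_iff₀ (by linarith)).1 ((min_le_left _ _).trans (min_le_right _ _))
    · exact (le_div_iff₀ (by linarith)).1 (min_le_right _ _)
  refine ⟨C, ε, C0, ε0, ε1, fun ι k D h1 h2 I μ hI ⟨γ, g1, g2⟩ => ?_⟩
  obtain ⟨μL, hL⟩ : ∃ μL : (ι →₀ ℕ) → ℝ, ∀ γ, μL γ = if γ.degree < k then μ γ else 0 :=
    ⟨_, fun _ => rfl⟩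
  obtain ⟨μH, hH⟩ : ∃ μH : (ι →₀ ℕ) → ℝ, ∀ γ, μH γ = if γ.degree < k then 0 else μ γ :=
    ⟨_, fun _ => rfl⟩
  have sp : ∀ p, pr I μ p = pr I μL p + pr I μH p := fun p => by
    rw [pr_apply, pr_apply, pr_apply, ← sum_add_distrib]
    refine sum_congr rfl fun γ _ => ?_
    rw [hL, hH]
    split_ifs <;> ring
  have hi0 : ∀ p, High k p → pr I μL p = 0 := fun p hp => sum_eq_zero fun γ _ => by
    rw [hL]
    split_ifs with h
    · rw [notMem_support_iff.1 fun h' => absurd (hp γ h') (by omega)]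
      simp
    · simp
  obtain ⟨γ0, a1, a2⟩ := exists_max_image I (fun γ => |μL γ|) ⟨γ, g1⟩
  obtain ⟨γ1, b1, b2⟩ := exists_max_image I (fun γ => |μH γ|) ⟨γ, g1⟩
  have A0 := abs_nonneg (μL γ0)
  have B0 := abs_nonneg (μH γ1)
  obtain ⟨l, l1, l2, l3⟩ : ∃ l : MvPolynomial ι ℚ, l.totalDegree ≤ D ∧
      (∀ θ, 0 ≤ θ → θ ≤ 1 → nrm θ l ≤ ε) ∧ pr I μL l = -(ε * |μL γ0|) := by
    by_cases h : γ0.degree < k
    · obtain ⟨σ, σ1, σ2⟩ := exists_sign (μL γ0)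
      refine ⟨monomial γ0 (σ * ε), (deg_monomial _ _).trans (by omega), fun θ t0 t1 => ?_, ?_⟩
      · rw [nrm_monomial, abs_mul, σ1, one_mul, abs_of_pos ε0]
        exact mul_le_of_le_one_right ε0.le (pow_le_one₀ t0 t1)
      · rw [pr_monomial I μL a1]
        push_cast
        linear_combination ε * σ2
    · exact ⟨0, by simp, fun _ _ _ => (nrm_zero _).trans_le ε0.le, by simp [hL, h]⟩
  obtain ⟨h, m1, m2, m3, m4⟩ : ∃ h : MvPolynomial ι ℚ, High k h ∧ h.totalDegree ≤ D ∧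
      nrm 1 h ≤ C ∧ pr I μH ((1 + h) ^ (n + 1) - 1) ≤ -η * |μH γ1| := by
    by_cases h : γ1.degree < k
    · exact ⟨0, by simp [High], by simp, (nrm_zero _).trans_le C0, by simp [hH, h]⟩
    · exact hC ι k D h1 h2 I μH γ1 b1 (by omega) (hI _ b1) b2
  refine ⟨h + l, ⟨(totalDegree_add _ _).trans (max_le m2 l1), fun θ t0 t1 => ?_⟩, ?_⟩
  · have := (m1.nrm_le t0 t1).trans (mul_le_mul_of_nonneg_right m3 (by positivity))
    linarith [nrm_add t0 h l, l2 θ t0 t1]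
  have l4 := l2 1 zero_le_one le_rfl
  have e1 : pr I μL ((1 + (h + l)) ^ (n + 1) - (1 + l) ^ (n + 1)) = 0 := by
    obtain ⟨q, hq⟩ := sub_dvd_pow_sub_pow (1 + (h + l)) (1 + l) (n + 1)
    rw [hq, show 1 + (h + l) - (1 + l) = h by ring]
    exact hi0 _ (m1.mul q)
  have e2 := (abs_le.1 (pr_le I μL _ A0 a2
    (hK ι 1 l ε ((nrm_one 1).trans_le (by linarith)) l4 (by linarith)).2)).2
  have e3 := (abs_le.1 (pr_le I μH _ B0 b2 (hK ι (1 + h) l ε ((nrm_add zero_le_one _ _).trans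
    (by rw [nrm_one]; linarith)) l4 (by linarith)).1)).2
  rw [one_pow, one_pow, one_mul, ← smul_eq_C_mul, map_sub, map_smul, l3, Rat.smul_def] at e2
  rw [add_assoc] at e3
  rw [sp]
  simp only [map_sub] at e1 e2 e3 m4 ⊢
  have ε0' : (0 : ℝ) < ε := by exact_mod_cast ε0
  have ε2' : (ε : ℝ) * K ≤ 1 / 2 := by
    have : (ε : ℝ) * K * 2 ≤ 1 := by exact_mod_cast (show ε * K * 2 ≤ 1 by linarith)
    linarith
  have ε3' : (ε : ℝ) * (K + 3) ≤ η := by exact_mod_cast ε3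
  have n2 : (2 : ℝ) ≤ n := by exact_mod_cast hn
  push_cast at e2 e3
  have f1 := mul_le_mul_of_nonneg_right ε2' (mul_nonneg ε0'.le A0)
  have f2 := mul_le_mul_of_nonneg_right n2 (mul_nonneg ε0'.le A0)
  have f3 := mul_le_mul_of_nonneg_right ε3' B0
  have f4 : 1 ≤ |μL γ0| ∨ 1 ≤ |μH γ1| := by
    by_cases h : γ.degree < k
    · exact .inl (g2.trans (by simpa [hL γ, h] using a2 γ g1))
    · exact .inr (g2.trans (by simpa [hH γ, h] using b2 γ g1))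
  rcases f4 with f4 | f4
  · nlinarith [mul_nonneg ε0'.le B0, mul_le_mul_of_nonneg_left f4 ε0'.le]
  · nlinarith [mul_nonneg ε0'.le A0, mul_le_mul_of_nonneg_left f4 ε0'.le]

theorem mv_hull (n : ℕ) (hn : 2 ≤ n) (ho : Odd (n + 1)) : ∃ C ε : ℚ, 0 ≤ C ∧ 0 < ε ∧ ε ≤ 1 / 4 ∧
    ∀ (ι : Type) [Fintype ι] (k D : ℕ), (n + 1) * k ≤ D + 1 → k ≤ D →
      ∃ S : Finset (MvPolynomial ι ℚ), S.Nonempty ∧
        (∀ R ∈ S, R.totalDegree ≤ D ∧ ∀ θ, 0 ≤ θ → θ ≤ 1 → nrm θ R ≤ ε + C * θ ^ k) ∧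
        ∀ T : MvPolynomial ι ℚ, T.totalDegree ≤ (n + 1) * D → nrm 1 T ≤ 2 * ε →
          ∃ W : MvPolynomial ι ℚ → ℚ, (∀ R, 0 ≤ W R) ∧ ∑ R ∈ S, W R • (1 + R) ^ (n + 1) = 1 + T := by
  classical
  obtain ⟨C, ε, C0, ε0, ε1, h⟩ := exists_good n hn ho
  refine ⟨C, ε, C0, ε0, ε1, fun ι _ k D h1 h2 => ?_⟩
  obtain ⟨I, hI⟩ : ∃ I : Finset (ι →₀ ℕ), ∀ γ, γ ∈ I ↔ γ.degree ≤ (n + 1) * D :=
    ⟨(Finsupp.finite_of_degree_le ((n + 1) * D)).toFinset, fun γ => by simp⟩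
  obtain ⟨ex, hex⟩ : ∃ ex : (I → ℝ) → (ι →₀ ℕ) → ℝ, ∀ μ (γ : I), ex μ γ = μ γ :=
    ⟨fun μ γ => if h : γ ∈ I then μ ⟨γ, h⟩ else 0, fun μ γ => by simp⟩
  have hp : ∀ μ p, pr I (ex μ) p = ∑ γ : I, μ γ * (coeff γ p : ℚ) := fun μ p => by
    rw [pr_apply, ← sum_coe_sort]
    simp only [hex]
  obtain ⟨t, ht⟩ := (isCompact_sphere (0 : I → ℝ) 1).elim_finite_subcover
    (fun R : {R : MvPolynomial ι ℚ // R.totalDegree ≤ D ∧
        ∀ θ, 0 ≤ θ → θ ≤ 1 → nrm θ R ≤ ε + C * θ ^ k} =>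
      {μ | pr I (ex μ) ((1 + R.1) ^ (n + 1) - 1) < -(2 * ε)})
    (fun R => isOpen_lt (by simp only [hp]; fun_prop) continuous_const) fun μ hμ => by
      obtain ⟨R, r1, r2⟩ := h ι k D h1 h2 I (ex μ) (fun γ hγ => (hI γ).1 hγ) (by
        by_contra hc
        push Not at hc
        refine ((pi_norm_lt_iff one_pos).2 fun γ => ?_).ne (mem_sphere_zero_iff_norm.1 hμ)
        simpa [hex] using hc γ γ.2)
      exact Set.mem_iUnion.2 ⟨⟨R, r1⟩, r2⟩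
  obtain ⟨S, S0, S1, S2⟩ : ∃ S : Finset (MvPolynomial ι ℚ), 0 ∈ S ∧
      (∀ R ∈ S, R.totalDegree ≤ D ∧ ∀ θ, 0 ≤ θ → θ ≤ 1 → nrm θ R ≤ ε + C * θ ^ k) ∧
      ∀ μ : I → ℝ, ‖μ‖ = 1 → ∃ R ∈ S, pr I (ex μ) ((1 + R) ^ (n + 1) - 1) < -(2 * ε) := by
    refine ⟨insert 0 (t.image Subtype.val), mem_insert_self _ _, fun R hR => ?_, fun μ hμ => ?_⟩
    · rcases mem_insert.1 hR with rfl | hR
      · exact ⟨by simp, fun θ _ _ => (nrm_zero _).trans_le (by positivity)⟩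
      · obtain ⟨R, -, rfl⟩ := mem_image.1 hR
        exact R.2
    · obtain ⟨R, r1, r2⟩ := Set.mem_iUnion₂.1 (ht (mem_sphere_zero_iff_norm.2 hμ))
      exact ⟨R.1, mem_insert_of_mem (mem_image_of_mem _ r1), r2⟩
  refine ⟨S, ⟨0, S0⟩, S1, fun T T1 T2 => ?_⟩
  obtain ⟨φ, hφ⟩ : ∃ φ : MvPolynomial ι ℚ → MvPolynomial ι ℚ,
    ∀ R, φ R = (1 + R) ^ (n + 1) - 1 - T := ⟨_, fun _ => rfl⟩
  obtain ⟨w, w0, hw⟩ := dual_all {y : I → ℚ | ∃ w : MvPolynomial ι ℚ → ℚ, (∀ R, 0 ≤ w R) ∧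
      ∀ γ : I, y γ = ∑ R ∈ S, w R * coeff γ (φ R)} ⟨0, by simp, by simp⟩
    (by
      rintro x ⟨a, ha, hx⟩ y ⟨b, hb, hy⟩
      exact ⟨a + b, fun p => add_nonneg (ha p) (hb p), fun γ => by
        simp [hx, hy, add_mul, sum_add_distrib]⟩)
    (by
      rintro c hc x ⟨a, ha, hx⟩
      exact ⟨c • a, fun p => mul_nonneg hc (ha p), fun γ => by simp [hx, mul_sum, mul_assoc]⟩)
    (fun f hf => by
      obtain ⟨μ, hμ⟩ : ∃ μ : I → ℝ, ∀ γ, μ γ = f (Pi.single γ 1) := ⟨_, fun _ => rfl⟩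
      have hf' : ∀ x : I → ℝ, f x = ∑ γ, μ γ * x γ := fun x => by
        conv_lhs => rw [← univ_sum_single x, map_sum]
        refine sum_congr rfl fun γ _ => ?_
        rw [hμ, mul_comm, ← smul_eq_mul, ← map_smul, ← Pi.single_smul, smul_eq_mul, mul_one]
      by_cases h0 : μ = 0
      · ext x
        simp [hf', h0]
      have n0 := norm_pos_iff.2 h0
      have n1 : ‖‖μ‖⁻¹ • μ‖ = 1 := norm_smul_inv_norm h0
      obtain ⟨R, r1, r2⟩ := S2 _ n1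
      have r3 := (abs_le.1 (pr_le I (ex (‖μ‖⁻¹ • μ)) 1 zero_le_one (fun γ hγ => by
        rw [hex _ ⟨γ, hγ⟩, ← n1]
        exact norm_le_pi_norm (‖μ‖⁻¹ • μ) _) T2)).1
      have r4 := mul_nonneg (inv_pos.2 n0).le (hf (fun γ => coeff γ (φ R))
        ⟨Pi.single R 1, fun q => by rw [Pi.single_apply]; split_ifs <;> simp, fun γ => by
          simp [Pi.single_apply, r1]⟩)
      have r5 : pr I (ex (‖μ‖⁻¹ • μ)) (φ R) = ‖μ‖⁻¹ * f fun γ => (coeff γ (φ R) : ℚ) := by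
        simp [hp, hf', mul_sum, mul_assoc]
      rw [← r5, hφ, map_sub] at r4
      push_cast at r3
      linarith)
    fun γ => -coeff γ (φ 0)
  obtain ⟨V, V0, V1, V2⟩ : ∃ V : MvPolynomial ι ℚ → ℚ, (∀ R, 0 ≤ V R) ∧ 0 < ∑ R ∈ S, V R ∧
      ∑ R ∈ S, V R • φ R = 0 := by
    have p0 : ∀ R : MvPolynomial ι ℚ, (0 : ℚ) ≤ if R = 0 then 1 else 0 := fun R => by
      split_ifs <;> simp
    refine ⟨fun R => w R + if R = 0 then 1 else 0, fun R => add_nonneg (w0 R) (p0 R),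
      sum_pos' (fun R _ => add_nonneg (w0 R) (p0 R)) ⟨0, S0,
        add_pos_of_nonneg_of_pos (w0 0) (by simp)⟩, ?_⟩
    ext γ
    rw [coeff_sum]
    by_cases hγ : γ ∈ I
    · have := hw ⟨γ, hγ⟩
      simp only [coeff_smul, smul_eq_mul, add_mul, sum_add_distrib, ← this]
      simp [S0]
    · refine sum_eq_zero fun R hR => ?_
      rw [coeff_smul, notMem_support_iff.1 fun h' => hγ ((hI γ).2 ((le_totalDegree h').trans ?_)),
        smul_zero]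
      rw [hφ]
      refine (totalDegree_sub _ _).trans (max_le ((totalDegree_sub _ _).trans (max_le
        ((totalDegree_pow _ _).trans (Nat.mul_le_mul_left _ ((totalDegree_add _ _).trans
          (max_le (by simp) (S1 R hR).1)))) (by simp))) T1)
  refine ⟨fun R => (∑ R ∈ S, V R)⁻¹ * V R, fun R => mul_nonneg (inv_pos.2 V1).le (V0 R), ?_⟩
  simp only [hφ, sub_sub, smul_sub, sum_sub_distrib, ← sum_smul, sub_eq_zero] at V2
  simp only [mul_smul, ← smul_sum]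
  rw [V2, smul_smul, inv_mul_cancel₀ V1.ne', one_smul]

end Pool.Agent.MP_93dc40_an
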